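import Pool.Agent.Q298.MX.Mixd
import Pool.Agent.Q298.JS.TowB
import Pool.Agent.Q298.NU.Dbl

/-!
# Abundance: constant factors times moving hyperelliptic curves of any genus

Let `X` be a projective variety, let `X ⇢ Z` be a dominant rational map to a projective manifold of
general type of dimension `b` (for instance a point), and let `|V_1|, ..., |V_c|` be linear systems on
`X` without fixed components. Let `Y_j` be the image of the rational map of `X` to the product of `Z`
and of the first `j` projective spaces, a variety of the dimension `b + d_1 + ... + d_j` with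
`d_j ≥ 1`; so `Y_0 = Z`. Let `V_j` be of dimension `n_j = d_j + k_j`. Suppose:

* (position) for each `j`, the images of the general fibres of `X ⇢ Y_{j-1}` (of the Stein
  factorization) in the projective space of `V_j` are nondegenerate;
* (the members) `V_j` is spanned by finitely many members `D_i` of `|V_j|`, in arbitrary position, and
  `V_j` is not the direct sum of two nonzero subspaces such that each `D_i` belongs to one of them; at
  every prime divisor `P` of `X` which is a component of some `D_i`, some `D_i'` has the multiplicity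
  at least `s_j`, where `2 s_j > R_j (k_j + 1) (k_j + 2)` with `R_j = n_j + 2`, or `R_j = n_j + 1` if
  there are at least `n_j + 3` different members;
* (the fibres) the geometric generic fibre `F` of the map of `X` to `Y = Y_c` is birational to the
  product of a projective manifold `F₀` of dimension `e₀`, which does not vary but is otherwise
  arbitrary, and of `e₁ ≥ 1` curves `C_1, ..., C_{e₁}`, double covers of the line with varying branch
  points: for some variety `Y''` with a generically finite map to `Y`, ramified anywhere, the function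
  field `K'` of the main component of the fibre product `X ×_Y Y''` is generated by the elements which
  are algebraic over the function field of `Y`, by the function field `M` of `F₀` and by `x_j`, `y_j`
  with `y_j ^ 2 = F_j (x_j)`, where the `F_j ≠ 0` are polynomials of any degree whose coefficients are
  algebraic over the function field of `Y`.

The curve `C_j` is rational, of genus one or of genus at least two if the number `OddRoots (F_j)` of
the roots of odd multiplicity of `F_j` is at most `2`, is `3` or `4`, or is at least `5`. Let `g` be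
the number of the `C_j` of genus at least two. Then

* if `F₀` is uniruled or some `C_j` is rational, then `X` is uniruled;
* if no `C_j` is rational then, for all `a ≥ 0`, `κ(F₀) ≥ a` implies `κ(X) ≥ dim Y + a + g`, and
  `ν(F₀) ≤ a` implies `ν(X) ≤ dim Y + a + g`, `dim Y = b + d_1 + ... + d_c`.

So if `X` has canonical singularities, and `κ(F₀) = ν(F₀) ≥ 0` (the abundance conjecture for `F₀`;
this is known if `e₀ ≤ 3` and `F₀` is not uniruled) then `κ(X) = ν(X) = dim Y + κ(F)`; by Kawamata,
`K_X` is semiample if it is nef. In our `MP_97d78d_ag.ConstantTimesMoving` the curves have genus at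
most one (`deg F_j ≤ 4`) and `Z` is a point. Here the curves have any genus, and the fibres `F` have
any Kodaira dimension also if `F₀` is a point.

The function-field language of the starting repository is used. `K` is the function field of `X` and
`B` that of `Z`; the prime divisors of `X` are places `P` of `K` (`Place`, `Divisorial`), `P.ord` is
the order along `P`, and `X` is given by the set of its prime divisors. A linear system is given by a
finite dimensional space `V` of rational functions: if `a` is the minimum of the orders at `P` of the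
members of `V` then the multiplicity of `P` in the divisor of the system which is given by `f ∈ V` is
`P.ord f - a`. A section of `N K_X` is an `N`-canonical form `ω` (`IsPluri`), a function of rational
vector fields, whose value on vector fields that are regular at `P` is regular at `P`, for
all prime divisors `P` of `X`. For `F₀` and `Z`, all divisorial places of their function fields are
taken: these are the sections of `N K` on a smooth projective model. `NumLe` is the upper bound for
the numerical dimension of a smooth projective model: `h⁰(m K + A) ≤ C m ^ a` for all divisors `A`.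

Proof. Lower bound: three kinds of forms along the fibres of the successive maps are multiplied, and
controlled at all prime divisors of `X`, including the vertical ones: the pluricanonical forms of `Z`
and of `F₀` (`Pool.Agent.Q298.MX.pluri_stage`), the generalised Wronskians of `V_j` with respect to
vector fields which are tangent to the fibres of `X ⇢ Y_{j-1}` (`Pool.Agent.Q298.JS.lin_stage`), and
forms made of the curves (`Pool.Agent.Q298.MX.dbl_forms`). Upper bound: the numerical dimension of the
relative product of the curves is at most `dim Y + g`, by its geometric generic fibre, as the curves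
have canonical degree `0` or positive (`Pool.Agent.Q298.NU.canDeg_nonneg`), and the numerical dimension
of the product of it with `F₀` is at most the sum of the numerical dimensions
(`Pool.Agent.Q298.IS.prod_num`).
-/

set_option autoImplicit false

open FF Pool.Agent.W602.GT Pool.Agent.W619.TW

namespace Pool.Agent.Results.MP_9a2ae6_ag.ConstantTimesHyperelliptic

/-- The function field of the image `Y_j` of `X` under the map to `Z`, with the function field `B`,
and the first `j` linear systems: the field which is generated by `B` and by the quotients of the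
members of each of them. -/
noncomputable def ImageField {K : Type} [Field K] [Algebra ℂ K] (B : IntermediateField ℂ K) {c : ℕ}
    (V : Fin c → Submodule ℂ K) (j : ℕ) : IntermediateField ℂ K :=
  B ⊔ IntermediateField.adjoin ℂ
    {y : K | ∃ i : Fin c, (i : ℕ) < j ∧ ∃ f ∈ V i, ∃ g ∈ V i, y = f / g}

/-- The algebraic closure of the subfield `L` in `K`. -/
noncomputable def ClosureIn {K : Type} [Field K] [Algebra ℂ K] (L : IntermediateField ℂ K) :
    IntermediateField ℂ K :=
  (algebraicClosure L K).restrictScalars ℂ

/-- `V` is the direct sum of two nonzero subspaces such that each `φ i` belongs to one of them. -/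
def Splits {q : ℕ} {K : Type} [Field K] [Algebra ℂ K] (V : Submodule ℂ K) (φ : Fin q → K) : Prop :=
  ∃ V1 V2 : Submodule ℂ K, V1 ≠ ⊥ ∧ V2 ≠ ⊥ ∧ Disjoint V1 V2 ∧ V1 ⊔ V2 = V ∧
    ∀ i, φ i ∈ V1 ∨ φ i ∈ V2

/-- There are `r` members `φ i` of which no two are proportional. -/
def Different (r : ℕ) {q : ℕ} {K : Type} [Field K] [Algebra ℂ K] (φ : Fin q → K) : Prop :=
  ∃ τ : Fin r → Fin q, ∀ i j, i ≠ j → ∀ t : ℂ, φ (τ i) ≠ t • φ (τ j)

/-- The condition on the multiplicities, on a variety `X` of dimension `w`: if the prime divisor `P`
of `X` is a component of one of the divisors `D i` (the order of `φ i` at `P` is not the minimum `a`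
of the orders of the members of `V`), then some `D i` has multiplicity at least `s` at `P`. -/
def Multiplicities (w : ℕ) {q : ℕ} {K : Type} [Field K] [Algebra ℂ K] (V : Submodule ℂ K)
    (φ : Fin q → K) (X : Set (Place ℂ K)) (s : ℕ) : Prop :=
  ∀ P ∈ X, Divisorial w P → ∀ a : ℤ, (∀ f ∈ V, f = 0 ∨ a ≤ P.ord f) →
    (∃ f ∈ V, f ≠ 0 ∧ P.ord f = a) → (∃ i, P.ord (φ i) ≠ a) → ∃ i, a + s ≤ P.ord (φ i)

/-- The hypotheses on the linear systems `V i` on a variety `X` of dimension `w` with a rational map to
`Z`, a variety of dimension `b` with the function field `B`. The dimension of `Y_j` is the sum of `b`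
and of the `d i` with `i < j`, `V i` has the dimension `d i + k i` as a linear system and, by
`nondegenerate`, this remains true for the space which it spans over the algebraic closure of the
function field of `Y_i`, the image under the map to `Z` and the previous linear systems. -/
structure PowerfulSystems {K : Type} [Field K] [Algebra ℂ K] (w : ℕ) (X : Set (Place ℂ K))
    (B : IntermediateField ℂ K) (b : ℕ) {c : ℕ} (d k : Fin c → ℕ) (V : Fin c → Submodule ℂ K) :
    Prop where
  pos : ∀ i, 1 ≤ d i
  dim : ∀ j ≤ c, Algebra.trdeg ℂ (ImageField B V j) =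
    (b + ∑ i ∈ Finset.univ.filter (fun i : Fin c => (i : ℕ) < j), d i : ℕ)
  rank : ∀ i, Module.finrank ℂ (V i) = d i + k i + 1
  nondegenerate : ∀ i : Fin c, Module.finrank (ClosureIn (ImageField B V i))
    (Submodule.span (ClosureIn (ImageField B V i)) (V i : Set K)) = d i + k i + 1
  members : ∀ i, ∃ (q : ℕ) (φ : Fin q → K) (R s : ℕ), (∀ j, φ j ≠ 0) ∧
    Submodule.span ℂ (Set.range φ) = V i ∧ ¬ Splits (V i) φ ∧
    (R = d i + k i + 2 ∨ (Different (d i + k i + 3) φ ∧ R = d i + k i + 1)) ∧
    R * ((k i + 1) * (k i + 2)) < 2 * s ∧ Multiplicities w (V i) φ X s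

/-- The image of the subfield `L` of `K` in the extension `K'`. -/
noncomputable def Up {K : Type} (K' : Type) [Field K] [Field K'] [Algebra ℂ K] [Algebra ℂ K']
    [Algebra K K'] [IsScalarTower ℂ K K'] (L : IntermediateField ℂ K) : IntermediateField ℂ K' :=
  L.map (IsScalarTower.toAlgHom ℂ K K')

/-- `ω` is a section of `N K_X`, where `X` of dimension `w` is given by the set of its prime divisors:
an `N`-canonical form whose values on vector fields which are regular at `P` are regular at `P`, for
all prime divisors `P` of `X`. -/
def IsSection {K : Type} [Field K] [Algebra ℂ K] (w : ℕ) (X : Set (Place ℂ K)) (N : ℕ)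
    (ω : (Fin w → Derivation ℂ K K) → K) : Prop :=
  IsPluri N ω ∧ ∀ P ∈ X, Divisorial w P → ∀ D : Fin w → Derivation ℂ K K,
    (∀ i, DerReg P (D i)) → P.Reg (ω D)

/-- `κ (X) ≥ κ`: some positive multiple of `K_X` has sections with `κ` algebraically independent
ratios (a nonzero section, if `κ = 0`). -/
def KodairaGe {K : Type} [Field K] [Algebra ℂ K] (w : ℕ) (X : Set (Place ℂ K)) (κ : ℕ) : Prop :=
  ∃ N : ℕ, 0 < N ∧ ∃ ω : Fin (κ + 1) → (Fin w → Derivation ℂ K K) → K,
    (∀ j, IsSection w X N (ω j)) ∧
    ∃ D, ω 0 D ≠ 0 ∧ AlgebraicIndependent ℂ (fun i : Fin κ => ω i.succ D / ω 0 D)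

/-- Uniruled function fields of transcendence degree `w`: `K` embeds into the field of rational
functions `M(t)` over the function field `M` of a variety of dimension `w - 1`. -/
def IsUniruled (K : Type) [Field K] [Algebra ℂ K] (w : ℕ) : Prop :=
  ∃ (M : Type) (_ : Field M) (_ : Algebra ℂ M), Algebra.EssFiniteType ℂ M ∧
    Algebra.trdeg ℂ M + 1 = w ∧ Nonempty (K →ₐ[ℂ] RatFunc M)

open Classical in
/-- The number of the roots of odd multiplicity of the polynomial `F` in an algebraic closure. -/
noncomputable def OddRoots {K : Type} [Field K] (F : Polynomial K) : ℕ :=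
  ((F.map (algebraMap K (AlgebraicClosure K))).roots.toFinset.filter fun b =>
    Odd ((F.map (algebraMap K (AlgebraicClosure K))).roots.count b)).card

theorem closure_eq {K : Type} [Field K] [Algebra ℂ K] (L : IntermediateField ℂ K) :
    ClosureIn L = Pool.Agent.Y172.acl ℂ (L : Set K) := by
  ext z
  rw [Pool.Agent.Q298.JS.mem_A]
  unfold ClosureIn
  rw [IntermediateField.mem_restrictScalars, mem_algebraicClosure_iff]

theorem PowerfulSystems.sys {K : Type} [Field K] [Algebra ℂ K] {w : ℕ} {X : Set (Place ℂ K)}
    {B : IntermediateField ℂ K} {b c : ℕ} {d k : Fin c → ℕ} {V : Fin c → Submodule ℂ K}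
    (h : PowerfulSystems w X B b d k V) :
    Pool.Agent.Q298.JS.SysB w X B b d k V (fun _ _ => 0) := by
  refine ⟨h.pos, h.dim, h.rank, fun i => ?_, fun i => ?_⟩
  · have h1 := h.nondegenerate i
    rw [closure_eq] at h1
    exact h1
  · obtain ⟨q, φ, R, s, h1, h2, h3, h4, h5, h6⟩ := h.members i
    refine ⟨q, φ, R, s, h1, h2, h3, h4, by exact_mod_cast h5, fun P hPX hPd a ha hb hc => ?_⟩
    obtain ⟨j, hj⟩ := h6 P hPX hPd a ha hb hc
    refine ⟨j, ?_⟩
    have h7 : (s : ℤ) ≤ P.ord (φ j) - a := by omega
    have h8 : ((s : ℤ) : ℝ) ≤ ((P.ord (φ j) - a : ℤ) : ℝ) := by exact_mod_cast h7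
    simpa using h8

/-- **Abundance.** Let `K` be the function field of a projective variety `X` of dimension
`b + (d + (e₀ + e₁))`, `e₁ ≥ 1`, where `d` is the sum of the `d i`, let the subfield `B` be the
function field of a variety `Z` of general type of dimension `b`, and let `V i` be linear systems on
`X` with `PowerfulSystems` relative to `Z`. Let `K' = K (α)`, where `α` is algebraic over the
function field of the image `Y` of `X` under the map to `Z` and all `V i`, be generated by the
elements which are algebraic over the function field of `Y`, by the function field `M` of a variety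
`F₀` of dimension `e₀`, and by `x j` and `y j` (`j < e₁`) with `y j ^ 2 = F j (x j)`, the nonzero
polynomials `F j` having coefficients which are algebraic over the function field of `Y`. If `F₀` is
uniruled or some `OddRoots (F j) ≤ 2` then `X` is uniruled. If all `OddRoots (F j) ≥ 3` then, for all
`a`, `κ (F₀) ≥ a` implies `κ (X) ≥ b + (d + (a + g))` and `ν (F₀) ≤ a` implies
`ν (X) ≤ b + (d + (a + g))`, where `g` is the number of the `j` with `OddRoots (F j) ≥ 5`. -/
theorem result (b c e₀ e₁ : ℕ) (he₁ : 1 ≤ e₁) (d k : Fin c → ℕ) (K : Type) [Field K] [Algebra ℂ K]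
    [Algebra.EssFiniteType ℂ K] (hK : Algebra.trdeg ℂ K = (b + (∑ i, d i + (e₀ + e₁)) : ℕ))
    (B : IntermediateField ℂ K) (hB : KodairaGe b (Set.univ : Set (Place ℂ B)) b)
    (V : Fin c → Submodule ℂ K) (X : Set (Place ℂ K))
    (hV : PowerfulSystems (b + (∑ i, d i + (e₀ + e₁))) X B b d k V)
    (K' : Type) [Field K'] [Algebra ℂ K'] [Algebra K K'] [IsScalarTower ℂ K K'] (α : K')
    (hα : IsAlgebraic (Up K' (ImageField B V c)) α) (hαt : IntermediateField.adjoin K {α} = ⊤)
    (M : IntermediateField ℂ K') [Algebra.EssFiniteType ℂ M] (hM : Algebra.trdeg ℂ M = e₀)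
    (x y : Fin e₁ → K') (F : Fin e₁ → Polynomial K') (hF0 : ∀ j, F j ≠ 0)
    (hFa : ∀ j i, IsAlgebraic (Up K' (ImageField B V c)) ((F j).coeff i))
    (hxy : ∀ j, y j ^ 2 = (F j).eval (x j))
    (hgen : IntermediateField.adjoin ℂ
      ({a | IsAlgebraic (Up K' (ImageField B V c)) a} ∪ (M : Set K') ∪ Set.range x ∪
        Set.range y) = ⊤) :
    ((IsUniruled M e₀ ∨ ∃ j, OddRoots (F j) ≤ 2) →
      IsUniruled K (b + (∑ i, d i + (e₀ + e₁)))) ∧
      ((∀ j, 3 ≤ OddRoots (F j)) → ∀ a : ℕ,
        (KodairaGe e₀ (Set.univ : Set (Place ℂ M)) a →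
          KodairaGe (b + (∑ i, d i + (e₀ + e₁))) X
            (b + (∑ i, d i + (a + (Finset.univ.filter fun j => 5 ≤ OddRoots (F j)).card)))) ∧
        (NumLe ℂ M e₀ (fun _ => False) a →
          NumLe ℂ K (b + (∑ i, d i + (e₀ + e₁))) (fun _ => False)
            (b + (∑ i, d i + (a + (Finset.univ.filter fun j => 5 ≤ OddRoots (F j)).card))))) := by
  classical
  have hodd : ∀ j, OddRoots (F j) = Pool.Agent.Q298.MX.oddRoots (F j) := fun j => by
    unfold OddRoots Pool.Agent.Q298.MX.oddRoots
    congr!
  have hαK : IsAlgebraic K α := by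
    have h1 : ∀ z ∈ Up K' (ImageField B V c), ∃ a : K, algebraMap K K' a = z := by
      intro z hz
      unfold Up at hz
      rw [IntermediateField.mem_map] at hz
      obtain ⟨a, -, ha⟩ := hz
      exact ⟨a, ha⟩
    obtain ⟨p, hp0, hp⟩ := hα
    obtain ⟨p', hp'⟩ : ∃ p' : Polynomial K, p'.map (algebraMap K K') =
        p.map (algebraMap (Up K' (ImageField B V c)) K') := by
      refine (Polynomial.mem_lifts _).1 ((Polynomial.lifts_iff_coeff_lifts _).2 fun i => ?_)
      rw [Polynomial.coeff_map]
      obtain ⟨a, ha⟩ := h1 _ (p.coeff i).2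
      exact ⟨a, ha⟩
    refine ⟨p', ?_, ?_⟩
    · rintro rfl
      rw [Polynomial.map_zero] at hp'
      exact hp0 ((Polynomial.map_eq_zero _).1 hp'.symm)
    · rw [← Polynomial.eval_map_algebraMap, hp', Polynomial.eval_map_algebraMap]
      exact hp
  have hfin : FiniteDimensional K K' := by
    have h1 : FiniteDimensional K (IntermediateField.adjoin K {α}) :=
      IntermediateField.adjoin.finiteDimensional hαK.isIntegral
    rw [hαt] at h1
    exact Module.Finite.of_surjective
      (IntermediateField.topEquiv : (⊤ : IntermediateField K K') ≃ₐ[K] K').toLinearMap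
      (IntermediateField.topEquiv).surjective
  have htop : ∀ z : K', ∃ p : Polynomial K, z = Polynomial.aeval α p := by
    intro z
    have h1 : z ∈ IntermediateField.adjoin K {α} := by
      rw [hαt]
      trivial
    rw [← IntermediateField.mem_toSubalgebra,
      IntermediateField.adjoin_simple_toSubalgebra_of_isAlgebraic hαK,
      Algebra.adjoin_singleton_eq_range_aeval] at h1
    obtain ⟨p, hp⟩ := h1
    exact ⟨p, hp.symm⟩
  have hS := hV.sys
  have htr : Algebra.trdeg ℂ (ImageField B V c) = (b + ∑ i, d i : ℕ) := hS.top
  have hBe : Algebra.EssFiniteType ℂ B := Pool.Agent.Q298.EF.ess_sub (K := K)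
  obtain ⟨hU, hO, hF⟩ := Pool.Agent.Q298.MX.mixd (by rw [hK, add_assoc]) htr (α := α) hα htop hM
    hF0 hFa hxy hgen X
  rw [add_assoc] at hU hO hF
  refine ⟨?_, fun h3 a => ⟨fun hMa => ?_, fun hMa => ?_⟩⟩
  · rintro (h1 | ⟨j, hj⟩)
    · exact hU h1
    · exact hO j (by rw [← hodd]; exact hj)
  · obtain ⟨m₀, hm₀, η, hη, hne₀⟩ := hMa
    obtain ⟨m₁, hm₁, ζ, hζ, hne₁⟩ := hB
    have hHF := hF (fun j => by rw [← hodd]; exact h3 j) m₀ a hm₀ η
      (fun l => ⟨(hη l).1, fun P hP => (hη l).2 P (Set.mem_univ _) hP⟩) hne₀
    simp only [← hodd] at hHF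
    obtain ⟨N, hN, ω, h5, h6⟩ := hS.iitaka hK (δ₂ := fun _ => 0) (δ := fun _ => 0)
      (fun _ _ _ => le_rfl) (fun _ _ => by simp) hHF hm₁ (η := ζ)
      (fun l => ⟨(hζ l).1, fun P hP => (hζ l).2 P (Set.mem_univ _) hP⟩) hne₁
    refine ⟨N, hN, ω, fun j => ⟨(h5 j).1, fun P hPX hPd D hD => ?_⟩, h6⟩
    rcases (h5 j).2 P hPX hPd D hD with h7 | h7
    · exact Or.inl h7
    · right
      have h8 : (0 : ℝ) ≤ (P.ord (ω j D) : ℝ) := by simpa using h7
      exact_mod_cast h8
  · have hess' : Algebra.EssFiniteType ℂ K' := Algebra.EssFiniteType.comp ℂ K K'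
    have hK' : Algebra.trdeg ℂ K' = (b + ∑ i, d i + (e₀ + e₁) : ℕ) := by
      have h0 : Algebra.IsAlgebraic K K' := inferInstance
      rw [← _root_.trdeg_add_eq ℂ K (A := K'), trdeg_eq_zero_iff.2 h0, add_zero, hK, add_assoc]
    have hLup : Algebra.trdeg ℂ (Up K' (ImageField B V c)) = (b + ∑ i, d i : ℕ) := by
      rw [← htr]
      exact (((ImageField B V c).equivMap (IsScalarTower.toAlgHom ℂ K K')).trdeg_eq).symm
    have h1 := Pool.Agent.Q298.NU.mix_numG he₁ hK' hLup hM hF0 hFa hxy hgen
      (fun j => by rw [← hodd]; exact h3 j) a hMa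
    simp only [← hodd] at h1
    rw [add_assoc, add_assoc] at h1
    exact Pool.Agent.Q298.EF.num_down (K' := K') hK h1

end Pool.Agent.Results.MP_9a2ae6_ag.ConstantTimesHyperelliptic
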