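import Mathlib.Algebra.Order.Archimedean.Real.Basic
import Mathlib.Tactic

/-!
# Abundance for compact Kähler klt pairs with fixed irregularity and with fixed second Betti number

Let `(X, B)` be compact Kähler klt pairs with `K_X + B` nef; `κ` and `ν` are the (invariant) Iitaka
dimension and the numerical dimension of `K_X + B`. The symmetric power `X^{(k)} = X^k / S_k` of a variety of
dimension at least two, with the boundary `B^{(k)}` induced by `B ⊠ ⋯ ⊠ B`, is again such a pair (the
quotient map is étale in codimension one), with the numbers `k κ` and `k ν`, the irregularity `q(X)`, and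
with the second Betti number `b_2(X)` if `q(X) = 0` (the cohomology of `X^{(k)}` consists of the invariants of
`S_k`). Hence abundance is equivalent, for each value of `q` separately, and for each value of `b_2`
separately if `q = 0`, to the inequality `κ ≥ ν - o(dim X)`, along some highly divisible dimensions.
-/

set_option autoImplicit false

namespace Pool.Agent.Results.MP_9a2ae6_ag.FixedBettiNumbers

universe u

/-- Compact Kähler klt pairs `(X, B)` with `K_X + B` nef. -/
structure Pairs where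
  /-- the pairs -/
  Pair : Type u
  /-- the dimension of `X` -/
  dim : Pair → ℕ
  /-- the irregularity `q(X) = dim H^1(X, O_X)` -/
  q : Pair → ℕ
  /-- the second Betti number of `X` -/
  b2 : Pair → ℕ
  /-- the (invariant) Iitaka dimension of `K_X + B`, in `ℕ ∪ {-∞}` -/
  kappa : Pair → WithBot ℕ
  /-- the numerical dimension of `K_X + B` -/
  nu : Pair → ℕ
  /-- `K_X + B` is semiample: `K_X + B = f^* A` for a contraction `f : X → Z` and an ample `A` -/
  Semiample : Pair → Prop

/-- The known properties. -/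
structure IsKnown (T : Pairs.{u}) : Prop where
  /-- `κ ≤ ν` -/
  kappa_le : ∀ P, T.kappa P ≤ T.nu P
  /-- Kawamata, Nakayama, Fujino: `K_X + B` is semiample if and only if `κ = ν` -/
  semiample_iff : ∀ P, T.Semiample P ↔ T.kappa P = T.nu P
  /-- abundance in dimension at most one -/
  small : ∀ P, T.dim P ≤ 1 → T.Semiample P
  /-- the symmetric power `(X^{(k)}, B^{(k)})`, `dim X ≥ 2`, `k ≥ 1` -/
  symmetric : ∀ (P : T.Pair) (k : ℕ), 2 ≤ T.dim P → 1 ≤ k → ∃ R : T.Pair,
    T.dim R = k * T.dim P ∧ T.q R = T.q P ∧ (T.q P = 0 → T.b2 R = T.b2 P) ∧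
      T.kappa R = k • T.kappa P ∧ T.nu R = k * T.nu P

variable {T : Pairs.{u}}

/-- Abundance for the pairs with the property `C`. -/
def AbundanceFor (T : Pairs.{u}) (C : T.Pair → Prop) : Prop := ∀ P : T.Pair, C P → T.Semiample P

/-- `κ = -∞` or `ν - κ ≥ t`. -/
def Gap (P : T.Pair) (t : ℕ) : Prop := ∀ d : ℕ, T.kappa P = d → d + t ≤ T.nu P

/-- `κ ≥ 0` and `κ ≥ ν - c dim X`. -/
def Weak (c : ℝ) (P : T.Pair) : Prop :=
  ∃ d : ℕ, T.kappa P = d ∧ (T.nu P : ℝ) - c * T.dim P ≤ d

/-- For every `c > 0` every `d ≥ 1` has a multiple `n ≥ 1` such that `κ ≥ 0` and `κ ≥ ν - c n` for the pairs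
of dimension `n` with the property `C`. -/
def WeakAbundanceFor (T : Pairs.{u}) (C : T.Pair → Prop) : Prop :=
  ∀ c : ℝ, 0 < c → ∀ d : ℕ, 1 ≤ d → ∃ n : ℕ, 1 ≤ n ∧ d ∣ n ∧
    ∀ P : T.Pair, C P → T.dim P = n → Weak c P

theorem nsmul_eq_coe (k : ℕ) (hk : 1 ≤ k) (x : WithBot ℕ) (d : ℕ) (h : k • x = d) :
    ∃ e : ℕ, x = e ∧ d = k * e := by
  cases x with
  | bot =>
    exfalso
    obtain ⟨m, rfl⟩ : ∃ m, k = m + 1 := ⟨k - 1, by omega⟩
    rw [succ_nsmul, WithBot.add_bot] at h
    exact absurd h (by simp)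
  | coe x =>
    refine ⟨x, rfl, ?_⟩
    rw [← WithBot.coe_nsmul] at h
    have h1 : WithBot.some (k • x) = WithBot.some d := h
    have h2 := WithBot.coe_injective h1
    rw [← h2, smul_eq_mul]

theorem gap_one (hT : IsKnown T) {P : T.Pair} (h : ¬ T.Semiample P) : Gap P 1 := by
  intro d hd
  rw [hT.semiample_iff, hd] at h
  have h1 := hT.kappa_le P
  rw [hd] at h1
  have h2 : d ≤ T.nu P := WithBot.coe_le_coe.1 h1
  have h3 : d ≠ T.nu P := fun e => h (by rw [e])
  omega

theorem dim_ge (hT : IsKnown T) {P : T.Pair} (hP : ¬ T.Semiample P) : 2 ≤ T.dim P := by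
  by_contra h
  exact hP (hT.small P (by omega))

theorem powers (hT : IsKnown T) (P : T.Pair) (hP : ¬ T.Semiample P) (k : ℕ) (hk : 1 ≤ k) :
    ∃ R : T.Pair, T.q R = T.q P ∧ (T.q P = 0 → T.b2 R = T.b2 P) ∧ T.dim R = k * T.dim P ∧
      Gap R k := by
  obtain ⟨R, e1, e2, e5, e3, e4⟩ := hT.symmetric P k (dim_ge hT hP) hk
  refine ⟨R, e2, e5, e1, fun d hd => ?_⟩
  rw [e3] at hd
  obtain ⟨e, h3, rfl⟩ := nsmul_eq_coe k hk _ _ hd
  have h4 := gap_one hT hP e h3
  rw [e4]
  calc k * e + k = k * (e + 1) := by ring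
    _ ≤ k * T.nu P := Nat.mul_le_mul_left _ h4

theorem not_weak {R : T.Pair} {k n₀ : ℕ} (hk : 1 ≤ k) (hn : 0 < n₀) (hd : T.dim R = k * n₀)
    (hg : Gap R k) : ¬ Weak (1 / (2 * n₀)) R := by
  rintro ⟨d, h1, h2⟩
  have h3 := hg d h1
  rw [hd] at h2
  have h4 : ((d : ℝ) + k) ≤ T.nu R := by exact_mod_cast h3
  have hn0 : (0 : ℝ) < n₀ := by exact_mod_cast hn
  have hk0 : (1 : ℝ) ≤ k := by exact_mod_cast hk
  have h5 : 1 / (2 * (n₀ : ℝ)) * ((k * n₀ : ℕ) : ℝ) = k / 2 := by
    push_cast
    field_simp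
  rw [h5] at h2
  linarith

/-- the equivalence for the properties which pass to symmetric powers -/
theorem equiv (hT : IsKnown T) (C : T.Pair → Prop)
    (hC : ∀ P R : T.Pair, T.q R = T.q P → (T.q P = 0 → T.b2 R = T.b2 P) → C P → C R) :
    AbundanceFor T C ↔ WeakAbundanceFor T C := by
  constructor
  · intro h c hc d hd
    refine ⟨d, hd, dvd_rfl, fun P hP _ => ⟨T.nu P, (hT.semiample_iff P).1 (h P hP), ?_⟩⟩
    have : 0 ≤ c * (T.dim P : ℝ) := by positivity
    linarith
  · intro h P hCP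
    by_contra hP
    have hd : 0 < T.dim P := by
      have := dim_ge hT hP
      omega
    have hd0 : (0 : ℝ) < T.dim P := by exact_mod_cast hd
    obtain ⟨n, hn, ⟨k, rfl⟩, hall⟩ := h (1 / (2 * T.dim P)) (by positivity) (T.dim P) hd
    have hk : 1 ≤ k := by
      rcases Nat.eq_zero_or_pos k with rfl | hk
      · omega
      · exact hk
    obtain ⟨R, h1, h4, h2, h3⟩ := powers hT P hP k hk
    exact not_weak hk hd h2 h3 (hall R (hC P R h1 h4 hCP) (by rw [h2, mul_comm]))

/-- **Fixed irregularity, fixed second Betti number.** For all data with the known properties: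

* if `K_X + B` is nef but not semiample, then for every `k ≥ 1` there is a pair of dimension `k dim X` with
  nef log canonical class, with the irregularity `q(X)`, the second Betti number `b_2(X)` if `q(X) = 0`, and
  with `κ = -∞` or `ν - κ ≥ k`;
* for every `m`, abundance holds for the pairs with `q = m` if and only if weak abundance does;
* for every `r`, abundance holds for the pairs with `q = 0` and `b_2 = r` if and only if weak abundance
  does. -/
theorem result (T : Pairs.{u}) (hT : IsKnown T) :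
    (∀ P : T.Pair, ¬ T.Semiample P → ∀ k : ℕ, 1 ≤ k → ∃ R : T.Pair, T.q R = T.q P ∧
      (T.q P = 0 → T.b2 R = T.b2 P) ∧ T.dim R = k * T.dim P ∧ Gap R k) ∧
    (∀ m : ℕ, AbundanceFor T (fun P => T.q P = m) ↔ WeakAbundanceFor T (fun P => T.q P = m)) ∧
    (∀ r : ℕ, AbundanceFor T (fun P => T.q P = 0 ∧ T.b2 P = r) ↔
      WeakAbundanceFor T (fun P => T.q P = 0 ∧ T.b2 P = r)) := by
  refine ⟨powers hT, fun m => equiv hT _ fun P R h1 _ h3 => h1.trans h3,
    fun r => equiv hT _ fun P R h1 h2 h3 => ⟨h1.trans h3.1, (h2 h3.1).trans h3.2⟩⟩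

end Pool.Agent.Results.MP_9a2ae6_ag.FixedBettiNumbers
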