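import Pool.Agent.Q16.AMP.Basic

/-!
# Abundance for compact Kähler klt pairs: failure is linear, so `κ ≥ ν - o(dim)` suffices

Let `(X, B)` be compact Kähler klt pairs with `K_X + B` nef, `κ` the (invariant) Iitaka dimension and `ν`
the numerical dimension of `K_X + B`. The abundance conjecture says `κ = ν` (equivalently, by Kawamata,
Nakayama and Fujino, `K_X + B` is semiample). We show that if it fails in dimension `n₀` then in each
dimension `n ≥ n₀` there are pairs with `κ = -∞` or `ν - κ ≥ ⌊n / n₀⌋`, and that the conjecture is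
equivalent to: for every `c > 0` there are arbitrarily large `n` with `κ ≥ ν - c n` for all pairs of
dimension `n` (with `w ≤ ν ≤ n - w`, for any prescribed `w`).
-/

set_option autoImplicit false

namespace Pool.Agent.Results.MP_9a2ae6_ag.LinearFailure

open Filter Pool.Agent.Q16.AMP

universe u

/-- Compact Kähler klt pairs `(X, B)` with `K_X + B` nef. -/
structure Pairs where
  /-- the pairs -/
  Pair : Type u
  /-- the dimension of `X` -/
  dim : Pair → ℕ
  /-- the (invariant) Iitaka dimension of `K_X + B`, in `ℕ ∪ {-∞}` -/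
  kappa : Pair → WithBot ℕ
  /-- the numerical dimension of `K_X + B` -/
  nu : Pair → ℕ
  /-- `K_X + B` is semiample: `K_X + B = f^* A` for a contraction `f : X → Z` and an ample `A` -/
  Semiample : Pair → Prop

/-- The known properties. -/
structure IsKnown (T : Pairs.{u}) : Prop where
  /-- `κ ≤ ν` -/
  kappa_le : ∀ X, T.kappa X ≤ T.nu X
  /-- `ν ≤ dim X` -/
  nu_le : ∀ X, T.nu X ≤ T.dim X
  /-- Kawamata, Nakayama, Fujino: `K_X + B` is semiample if and only if `κ = ν` -/
  semiample_iff : ∀ X, T.Semiample X ↔ T.kappa X = T.nu X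
  /-- the product of two pairs is a pair; `κ` and `ν` are additive -/
  prod : ∀ X Y : T.Pair, ∃ Z : T.Pair, T.dim Z = T.dim X + T.dim Y ∧
    T.kappa Z = T.kappa X + T.kappa Y ∧ T.nu Z = T.nu X + T.nu Y
  /-- an elliptic curve -/
  elliptic : ∃ E : T.Pair, T.dim E = 1 ∧ T.kappa E = 0 ∧ T.nu E = 0
  /-- a curve of genus two -/
  curve : ∃ C : T.Pair, T.dim C = 1 ∧ T.kappa C = 1 ∧ T.nu C = 1

variable {T : Pairs.{u}}

/-- Abundance. -/
def Abundance (T : Pairs.{u}) : Prop := ∀ X : T.Pair, T.Semiample X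

/-- `w ≤ ν ≤ dim X - w`, and `κ = -∞` or `ν - κ ≥ t`. -/
def Defect (w : ℕ) (X : T.Pair) (t : ℝ) : Prop :=
  w ≤ T.nu X ∧ T.nu X + w ≤ T.dim X ∧ ∀ d : ℕ, T.kappa X = d → (d : ℝ) + t ≤ T.nu X

/-- `κ ≥ ν - c dim X`. -/
def Weak (c : ℝ) (X : T.Pair) : Prop :=
  ∃ d : ℕ, T.kappa X = d ∧ (T.nu X : ℝ) - c * T.dim X ≤ d

theorem add_eq_coe {x y : WithBot ℕ} {d : ℕ} (h : x + y = d) :
    ∃ d₁ d₂ : ℕ, x = d₁ ∧ y = d₂ ∧ d = d₁ + d₂ := by
  cases x with
  | bot => simp at h
  | coe x =>
    cases y with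
    | bot => simp at h
    | coe y =>
      have h1 : WithBot.some (x + y) = WithBot.some d := h
      exact ⟨x, y, rfl, rfl, (WithBot.coe_injective h1).symm⟩

theorem defect_prod (hT : IsKnown T) (w w' : ℕ) (X Y : T.Pair) (s t : ℝ) (hX : Defect w X s)
    (hY : Defect w' Y t) : ∃ Z, T.dim Z = T.dim X + T.dim Y ∧ Defect (w + w') Z (s + t) := by
  obtain ⟨Z, h1, h2, h3⟩ := hT.prod X Y
  obtain ⟨a1, a2, a3⟩ := hX
  obtain ⟨b1, b2, b3⟩ := hY
  refine ⟨Z, h1, by omega, by omega, fun d hdd => ?_⟩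
  rw [h2] at hdd
  obtain ⟨d₁, d₂, e1, e2, rfl⟩ := add_eq_coe hdd
  have := a3 _ e1
  have := b3 _ e2
  rw [h3]
  push_cast
  linarith

theorem Defect.mono {w w' : ℕ} (h : w' ≤ w) {X : T.Pair} {t : ℝ} (hX : Defect w X t) :
    Defect w' X t := by
  obtain ⟨h1, h2, h3⟩ := hX
  exact ⟨by omega, by omega, h3⟩

theorem closed (hT : IsKnown T) (w : ℕ) : ∀ (X Y : T.Pair) (s t : ℝ), Defect w X s → Defect w Y t →
    ∃ Z, T.dim Z = T.dim X + T.dim Y ∧ Defect w Z (s + t) := by
  intro X Y s t hX hY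
  obtain ⟨Z, h1, h2⟩ := defect_prod hT w w X Y s t hX hY
  exact ⟨Z, h1, h2.mono (by omega)⟩

theorem padded (hT : IsKnown T) (w : ℕ) : ∀ (X : T.Pair) (t : ℝ), Defect w X t →
    ∃ Z, T.dim Z = T.dim X + 1 ∧ Defect w Z t := by
  intro X t hX
  obtain ⟨E, g1, g2, g3⟩ := hT.elliptic
  obtain ⟨Z, h1, h2⟩ := defect_prod hT w 0 X E t 0 hX
    ⟨Nat.zero_le _, by omega, fun d hd => by
      rw [g2] at hd
      have h3 : d = 0 := by exact_mod_cast hd.symm
      simp [h3]⟩
  exact ⟨Z, by rw [h1, g1], by simpa using h2⟩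

/-- `ν` and `dim X - ν` can be made large -/
theorem enlarge (hT : IsKnown T) {X : T.Pair} {t : ℝ} (hX : Defect 0 X t) (w : ℕ) :
    ∃ Z : T.Pair, Defect w Z t := by
  induction w with
  | zero => exact ⟨X, hX⟩
  | succ w ih =>
    obtain ⟨Y, a1, a2, a3⟩ := ih
    obtain ⟨E, e1, e2, e3⟩ := hT.elliptic
    obtain ⟨C, c1, c2, c3⟩ := hT.curve
    obtain ⟨Z, z1, z2, z3⟩ := hT.prod Y E
    obtain ⟨W, w1, w2, w3⟩ := hT.prod Z C
    refine ⟨W, by omega, by omega, fun d hdd => ?_⟩
    rw [w2, z2, e2, c2, add_zero] at hdd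
    obtain ⟨d₁, d₂, f1, f2, rfl⟩ := add_eq_coe hdd
    have h5 := a3 _ f1
    have h6 : d₂ = 1 := by exact_mod_cast f2.symm
    subst h6
    rw [w3, z3, e3, c3]
    push_cast
    linarith

theorem defect_of_not (hT : IsKnown T) {X : T.Pair} (h : ¬ T.Semiample X) : Defect 0 X 1 := by
  refine ⟨Nat.zero_le _, by simpa using hT.nu_le X, fun d hd => ?_⟩
  rw [hT.semiample_iff, hd] at h
  have h1 := hT.kappa_le X
  rw [hd] at h1
  have h2 : d ≤ T.nu X := WithBot.coe_le_coe.1 h1
  have h3 : d ≠ T.nu X := fun e => h (by rw [e])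
  have h4 : d + 1 ≤ T.nu X := by omega
  exact_mod_cast h4

theorem abundance_iff (hT : IsKnown T) :
    Abundance T ↔ ∀ (X : T.Pair) (t : ℝ), Defect 0 X t → t ≤ 0 := by
  constructor
  · rintro h X t ⟨-, -, hd⟩
    have h1 := hd _ ((hT.semiample_iff X).1 (h X))
    linarith
  · intro h X
    by_contra hX
    exact absurd (h X 1 (defect_of_not hT hX)) (by norm_num)

/-- **Abundance fails linearly if it fails at all.** -/
theorem result (T : Pairs.{u}) (hT : IsKnown T) :
    (∀ X : T.Pair, ¬ T.Semiample X → 0 < T.dim X → ∀ n : ℕ, T.dim X ≤ n →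
      ∃ Z : T.Pair, T.dim Z = n ∧ Defect 0 Z (n / T.dim X : ℕ)) ∧
    ∀ w : ℕ, Abundance T ↔ ∀ c : ℝ, 0 < c → ∃ᶠ n : ℕ in atTop, ∀ X : T.Pair, T.dim X = n →
      w ≤ T.nu X → T.nu X + w ≤ n → Weak c X := by
  constructor
  · intro X hX hd n hn
    obtain ⟨Z, h1, h2⟩ := multiples (closed hT 0) (padded hT 0) (defect_of_not hT hX) hd n hn
    exact ⟨Z, h1, by simpa using h2⟩
  · intro w
    rw [abundance_iff hT]
    have key := amplify (closed hT w) (padded hT w)
    have h1 : (∀ (X : T.Pair) (t : ℝ), Defect 0 X t → t ≤ 0) ↔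
        ∀ (X : T.Pair) (t : ℝ), Defect w X t → t ≤ 0 := by
      constructor
      · exact fun h X t hX => h X t (hX.mono (Nat.zero_le _))
      · intro h X t hX
        obtain ⟨Y, hY⟩ := enlarge hT hX w
        exact h Y t hY
    rw [h1, key]
    refine forall_congr' fun c => forall_congr' fun hc => ?_
    constructor
    · intro h
      refine h.mono fun n hn X hX hw1 hw2 => ?_
      generalize hE : T.kappa X = z
      cases z with
      | bot =>
        exfalso
        have h2 := hn X hX (c * n + 1) ⟨hw1, by omega, fun d hd => by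
          rw [hE] at hd
          exact absurd hd (by simp)⟩
        linarith
      | coe z =>
        refine ⟨z, hE, ?_⟩
        have h2 := hn X hX (T.nu X - z) ⟨hw1, by omega, fun d hd => by
          rw [hE] at hd
          have h3 : z = d := WithBot.coe_injective (hd : WithBot.some z = WithBot.some d)
          rw [h3]
          linarith⟩
        rw [hX]
        linarith
    · intro h
      refine h.mono fun n hn X hX t ⟨hw1, hw2, hd⟩ => ?_
      obtain ⟨d, h3, h4⟩ := hn X hX hw1 (by omega)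
      have h5 := hd d h3
      rw [hX] at h4
      linarith

end Pool.Agent.Results.MP_9a2ae6_ag.LinearFailure
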