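import Pool.Agent.H172.RP.Fin

/-!
# Semiampleness for toroidal pairs with real coefficients

Let `F i`, `i = 1, ..., r`, be a form of degree `d i` in `n i + 1` variables whose zero set `H i` in the
projective `n i`-space is a smooth hypersurface, and let `K` be the function field of an abelian cover of
the product `Y` of these projective spaces which is branched only along the hypersurfaces `H i`: the field
`K` is generated by the affine coordinates `x i j / x i 0` of `Y` and by roots `z j`,
`z j ^ (m j) = ∏ i, (F i (x i) / x i 0 ^ (d i)) ^ (a j i)`, where `m j` divides `a j i * d i`.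

The `Multiplicities` of a prime divisor `P` over `Y` (a divisorial place of `K`) are the orders `v i`
along `P` of the pullbacks of the divisors `H i`. The divisor `P` is a log place of the pair
`(Y, H 1 + ... + H r)` if its log discrepancy is zero: the order of the canonical form of `Y` along `P` is
less than the order of the pullback of `H 1 + ... + H r`. The vectors of multiplicities of the log places
are `Primitive` elements of the cone of the `Admissible` vectors: those `v ≠ 0` of nonnegative integers
with `m j ∣ ∑ i, a j i * v i` for all `j`.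

Let `(X, Δ)` be a toroidal pair: `X` is a normal projective variety with function field `K` whose prime
divisors over the hypersurfaces `H i` are the log places with multiplicities in a finite set `rays`, and
`Δ` is the sum of `δ v` times the sum of the prime divisors of `X` with multiplicities `v ∈ rays`, with
real `δ v ≤ 1` (so `(X, Δ)` is log canonical if `K_X + Δ` is `ℝ`-Cartier and `Δ ≥ 0`, and it is klt if
moreover `δ v < 1` for all `v ∈ rays`). We put `δ v = 1` for all other `v`: along the log places which are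
not on `X` all sections of `m (K_X + Δ)` have a pole of order at most `m`.

The theorem: suppose that `K_X + Δ` is pseudo-effective. Then `Δ = ∑ σ, c σ * Δ σ` with finitely many real
`c σ > 0` of sum `1` and divisors `Δ σ` with rational coefficients at most `1` (equal to `1` where
the coefficient of `Δ` is `1`), and there are `E ≥ 1` and finitely many nonzero sections `s σ b` of
`E (K_X + Δ σ)` with the following property. For every prime divisor `P` over `X` there are `b σ` such
that the order along `P` of every section of `⌊m (K_X + Δ)⌋`, `m ≥ 1`, is at least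
`(m / E) * ∑ σ, c σ * ord_P (s σ (b σ))`, and for every divisor `A` there is a constant `C` such that the
order along `P` of every section of `⌊m (K_X + Δ)⌋ + A`, `m ≥ 1`, is at least
`(m / E) * ∑ σ, c σ * ord_P (s σ (b σ)) - C / E`.

In other words: let `f : W → X` be a resolution on which the moving parts `M σ` of the linear systems
generated by the `s σ b` (`b` variable) are base point free. Then the semiample `ℝ`-divisor
`∑ σ, (c σ / E) * M σ` is the positive part of the Zariski decomposition of `f^* (K_X + Δ)` (in the sense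
of Nakayama). If `K_X + Δ` is nef, the asymptotic orders of vanishing are zero and the negative part
vanishes, so `f^* (K_X + Δ)`, and with it `K_X + Δ`, is semiample: it is the pullback of an ample
`ℝ`-divisor under a contraction.

Sections of `⌊m (K_X + Δ)⌋ + j A` are functions of `N = dim X` rational vector fields, with a condition at
the divisorial places of `K` with centre not in the hypersurfaces `H i` (`v = 0`, where `X` is smooth and
`Δ` is zero) and at the log places.
-/

set_option autoImplicit false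

open FF MvPolynomial Pool.Agent.W602.GT

namespace Pool.Agent.Results.MP_9a2ae6_ag.RealPositivePart

/-- The form `F` has no singular zeros: its partial derivatives have no common zero but `0`. -/
def Smooth {n : ℕ} (F : MvPolynomial (Fin (n + 1)) ℂ) : Prop :=
  ∀ x : Fin (n + 1) → ℂ, x ≠ 0 → ∃ l, eval x (pderiv l F) ≠ 0

section

variable {r R : ℕ}

/-- The vectors which satisfy the divisibility conditions. -/
def Admissible (m : Fin R → ℕ) (a : Fin R → Fin r → ℕ) (v : Fin r → ℕ) : Prop :=
  v ≠ 0 ∧ ∀ j, m j ∣ ∑ i, a j i * v i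

/-- The admissible vectors which are not proper multiples of admissible vectors. -/
def Primitive (m : Fin R → ℕ) (a : Fin R → Fin r → ℕ) (v : Fin r → ℕ) : Prop :=
  Admissible m a v ∧ ∀ (k : ℕ) (u : Fin r → ℕ), Admissible m a u → (∀ i, v i = k * u i) → k = 1

end

section cover

variable {r : ℕ} {n : Fin r → ℕ} {N : ℕ} {K : Type} [Field K] [Algebra ℂ K]

/-- The affine coordinates of the product of the projective spaces. -/
noncomputable def affine (x : ∀ i, Fin (n i + 1) → K) (b : (i : Fin r) × Fin (n i)) : K :=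
  x b.1 b.2.succ / x b.1 0

/-- The canonical form of the product of the projective spaces (which has the weight `n i + 1` in the
homogeneous coordinates `x i`), at the vector fields `D`. -/
noncomputable def canonicalForm (e : ((i : Fin r) × Fin (n i)) ≃ Fin N)
    (x : ∀ i, Fin (n i + 1) → K) (D : Fin N → Derivation ℂ K K) : K :=
  (∏ i, x i 0 ^ (n i + 1)) * (Matrix.of fun a b : Fin N => D a (affine x (e.symm b))).det

/-- `α i` is the least order of the homogeneous coordinates `x i` at `P`, and `v i` is the order of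
the pullback of the hypersurface `F i = 0`. -/
def Multiplicities (x : ∀ i, Fin (n i + 1) → K) (F : ∀ i, MvPolynomial (Fin (n i + 1)) ℂ)
    (d : Fin r → ℕ) (P : Place ℂ K) (α : Fin r → ℤ) (v : Fin r → ℕ) : Prop :=
  (∀ i l, α i ≤ P.ord (x i l)) ∧ (∀ i, ∃ l, P.ord (x i l) = α i) ∧
    ∀ i, P.ord (aeval (x i) (F i)) = d i * α i + v i

/-- The log discrepancy of `P` for the pair of the product of the projective spaces and the sum of
the hypersurfaces is zero: at some vector fields which are regular at `P` the order of the canonical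
form is less than the order of the pullback of the sum of the hypersurfaces. -/
def LogPlace (e : ((i : Fin r) × Fin (n i)) ≃ Fin N) (x : ∀ i, Fin (n i + 1) → K)
    (F : ∀ i, MvPolynomial (Fin (n i + 1)) ℂ) (d : Fin r → ℕ) (P : Place ℂ K) : Prop :=
  ∃ α v, Multiplicities x F d P α v ∧ ∃ D : Fin N → Derivation ℂ K K, (∀ c, DerReg P (D c)) ∧
    canonicalForm e x D ≠ 0 ∧
    P.ord (canonicalForm e x D) < ∑ i, ((n i : ℤ) + 1) * α i + ∑ i, (v i : ℤ)

variable (e : ((i : Fin r) × Fin (n i)) ≃ Fin N) (x : ∀ i, Fin (n i + 1) → K)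
  (F : ∀ i, MvPolynomial (Fin (n i + 1)) ℂ) (d : Fin r → ℕ) (δ : (Fin r → ℕ) → ℝ)

open Classical in
/-- `ω` is a section of `⌊m (K_X + Δ)⌋ + j A`: a rational section of the `m`-th power of the canonical
bundle (`IsPluri`: a function of `N` rational vector fields which is multiplied by `det B ^ m` under
a linear substitution `B`) whose order on the vector fields which are regular at `P` is at least `j`
times the order of one of the functions in `S` minus `m` times the coefficient of `Δ`, for all
divisorial places `P` of `K` with multiplicities `v = 0` (coefficient zero) and for all log places with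
multiplicities `v` (coefficient `δ v`). Here `A` is the divisor which is generated by the finite set
`S` of functions; `A = 0` if `S = {1}`. -/
def IsSection (S : Finset K) (m j : ℕ) (ω : (Fin N → Derivation ℂ K K) → K) : Prop :=
  IsPluri m ω ∧ ∀ P : Place ℂ K, Divisorial N P → ∀ α v, Multiplicities x F d P α v →
    (v = 0 ∨ LogPlace e x F d P) → ∀ D : Fin N → Derivation ℂ K K, (∀ c, DerReg P (D c)) →
      ω D = 0 ∨ ∃ s ∈ S, s ≠ 0 ∧
        (j * P.ord s : ℝ) - (if v = 0 then 0 else m * δ v) ≤ P.ord (ω D)

/-- `K_X + Δ` is pseudo-effective: there is a divisor `A` such that for all `M` a positive multiple of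
`M (K_X + Δ) + A` is effective. -/
def Pseudoeffective : Prop :=
  ∃ S : Finset K, ∀ M : ℕ, ∃ j : ℕ, 1 ≤ j ∧ ∃ ω : (Fin N → Derivation ℂ K K) → K, ω ≠ 0 ∧
    IsSection e x F d δ S (j * M) j ω

/-- The positive part of `K_X + Δ` is semiample as an `ℝ`-divisor: there are finitely many real `c σ > 0`
of sum `1` and rational coefficients `τ σ v ≤ 1` (equal to `1` where `δ v = 1`) with
`δ v = ∑ σ, c σ * τ σ v` and finitely many nonzero sections `s σ b` of `E (K_X + Δ σ)`, where `Δ σ` has the
coefficients `τ σ v`, such that for every prime divisor `P` over `X` there are `b σ` with the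
following two properties. The order along `P` of every section `ω` of `⌊m (K_X + Δ)⌋`, `m ≥ 1`, is at
least `m / E` times `∑ σ, c σ * ord_P (s σ (b σ))`. For every divisor `A` (generated by `S`) there is `C`
such that the order along `P` of every section `ω` of `⌊m (K_X + Δ)⌋ + A`, `m ≥ 1`, is at least `m / E`
times this sum minus `C / E`. (The orders of the `s σ b` and of `ω` are compared at the same vector fields
`v`; the inequalities do not depend on `v`.) -/
def SemiamplePositivePart : Prop :=
  ∃ (m0 : ℕ) (c : Fin m0 → ℝ) (τ : Fin m0 → (Fin r → ℕ) → ℚ) (E : ℕ), (∀ σ, 0 < c σ) ∧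
    ∑ σ, c σ = 1 ∧ (∀ v, δ v = ∑ σ, c σ * τ σ v) ∧ (∀ σ v, τ σ v ≤ 1) ∧
    (∀ σ v, δ v = 1 → τ σ v = 1) ∧ 1 ≤ E ∧
    ∃ (k : Fin m0 → ℕ) (s : ∀ σ, Fin (k σ) → (Fin N → Derivation ℂ K K) → K),
      (∀ σ b, s σ b ≠ 0) ∧
      (∀ σ b, IsSection e x F d (fun v => (τ σ v : ℝ)) {1} E 1 (s σ b)) ∧
      ∀ P : Place ℂ K, Divisorial N P → ∃ b : ∀ σ, Fin (k σ),
        (∀ (m : ℕ) (ω : (Fin N → Derivation ℂ K K) → K), 1 ≤ m → IsSection e x F d δ {1} m 1 ω →
          ∀ v, ω v ≠ 0 → (∀ σ, s σ (b σ) v ≠ 0) ∧
            (m : ℝ) * ∑ σ, c σ * P.ord (s σ (b σ) v) ≤ E * P.ord (ω v)) ∧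
        ∀ S : Finset K, ∃ C : ℕ, ∀ (m : ℕ) (ω : (Fin N → Derivation ℂ K K) → K), 1 ≤ m →
          IsSection e x F d δ S m 1 ω → ∀ v, ω v ≠ 0 → (∀ σ, s σ (b σ) v ≠ 0) ∧
            (m : ℝ) * ∑ σ, c σ * P.ord (s σ (b σ) v) ≤ E * P.ord (ω v) + C

end cover

section aux

variable {r : ℕ} {n : Fin r → ℕ} {N : ℕ} {K : Type} [Field K] [Algebra ℂ K]
  {e : ((i : Fin r) × Fin (n i)) ≃ Fin (N + 1)} {x : ∀ i, Fin (n i + 1) → K}
  {F : ∀ i, MvPolynomial (Fin (n i + 1)) ℂ} {d : Fin r → ℕ}

theorem log_iff {P : Place ℂ K} :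
    LogPlace e x F d P ↔ Pool.Agent.H172.LG.Lg e x F d P :=
  ⟨fun ⟨α, v, h, h'⟩ => ⟨α, v, ⟨h.1, h.2.1, h.2.2⟩, h'⟩,
    fun ⟨α, v, h, h'⟩ => ⟨α, v, ⟨h.h1, h.h2, h.h3⟩, h'⟩⟩

theorem section_iff {δ : (Fin r → ℕ) → ℝ}
    {S : Finset K} {m j : ℕ} {ω : (Fin (N + 1) → Derivation ℂ K K) → K} :
    IsSection e x F d δ S m j ω ↔ Pool.Agent.H172.LG.LSec e x F d δ S m j ω := by
  unfold IsSection Pool.Agent.H172.LG.LSec
  refine and_congr Iff.rfl ?_
  constructor
  · intro h P hd α v hmu hP D hD
    exact h P hd α v ⟨hmu.h1, hmu.h2, hmu.h3⟩ (hP.imp id log_iff.2) D hD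
  · intro h P hd α v hmu hP D hD
    exact h P hd α v ⟨hmu.1, hmu.2.1, hmu.2.2⟩ (hP.imp id log_iff.1) D hD

end aux

/-- **Semiampleness for toroidal pairs with real coefficients.** Let `K` be the function field of an
abelian cover of the product of the projective `n i`-spaces which is branched along smooth hypersurfaces
`F i = 0` of the factors, and let `(X, Δ)` be a toroidal pair with function field `K`: the prime divisors
of `X` over the hypersurfaces are the log places with multiplicities in the finite set `rays` of primitive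
vectors, and they have the real coefficients `δ v ≤ 1` in `Δ` (and `δ v = 1` for `v ∉ rays`). If
`K_X + Δ` is pseudo-effective then its positive part is semiample (`SemiamplePositivePart`). -/
theorem result (r N R : ℕ) (n d : Fin r → ℕ) (hr : 1 ≤ r) (hn : ∀ i, 1 ≤ n i)
    (hd : ∀ i, 1 ≤ d i) (e : ((i : Fin r) × Fin (n i)) ≃ Fin N)
    (F : ∀ i, MvPolynomial (Fin (n i + 1)) ℂ) (hF : ∀ i, (F i).IsHomogeneous (d i))
    (hs : ∀ i, Smooth (F i)) (m : Fin R → ℕ) (hm : ∀ j, 1 ≤ m j) (a : Fin R → Fin r → ℕ)
    (hdiv : ∀ j i, m j ∣ a j i * d i)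
    (K : Type) [Field K] [Algebra ℂ K] (x : ∀ i, Fin (n i + 1) → K) (hx0 : ∀ i, x i 0 ≠ 0)
    (hbas : IsTranscendenceBasis ℂ (affine x)) (z : Fin R → K)
    (hz : ∀ j, z j ^ m j = ∏ i, (aeval (x i) (F i) / x i 0 ^ d i) ^ a j i)
    (hgen : IntermediateField.adjoin ℂ (Set.range (affine x) ∪ Set.range z) = ⊤)
    (rays : Finset (Fin r → ℕ)) (hrays : ∀ v ∈ rays, Primitive m a v)
    (δ : (Fin r → ℕ) → ℝ) (hδ : ∀ v, δ v ≤ 1) (hoff : ∀ v, v ∉ rays → δ v = 1)
    (hps : Pseudoeffective e x F d δ) : SemiamplePositivePart e x F d δ := by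
  classical
  obtain ⟨N', rfl⟩ : ∃ N', N = N' + 1 := by
    have h1 := (e ⟨⟨0, hr⟩, ⟨0, hn _⟩⟩).pos
    exact ⟨N - 1, by omega⟩
  have hbas' : IsTranscendenceBasis ℂ (Pool.Agent.TH756.PR.uu e x) :=
    Pool.Agent.TH756.PR.basis_uu e hbas
  have hrange : Set.range (Pool.Agent.TH756.PR.uu e x) = Set.range (affine x) := by
    ext z
    constructor
    · rintro ⟨b, rfl⟩
      exact ⟨e.symm b, rfl⟩
    · rintro ⟨a, rfl⟩
      refine ⟨e a, ?_⟩
      change Pool.Agent.TH756.PR.aff x (e.symm (e a)) = _
      rw [e.symm_apply_apply]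
      rfl
  have hgen' : IntermediateField.adjoin ℂ (Set.range (Pool.Agent.TH756.PR.uu e x) ∪
      Set.range z) = ⊤ := by
    rw [hrange]
    exact hgen
  have hineq : ∀ v, Primitive m a v → 1 - δ v ≤ ∑ i, (((d i : ℝ) - n i - 1) / d i) * v i := by
    intro v hv
    obtain ⟨S, hS⟩ := hps
    exact Pool.Agent.H172.LG.psef_main (e := e) hn hx0 hbas' hd hs hF hm hz hdiv hgen'
      hδ hv ⟨S, fun M => by
        obtain ⟨j, hj, ω, hω0, hω⟩ := hS M
        exact ⟨j, hj, ω, hω0, section_iff.1 hω⟩⟩
  obtain ⟨m0, c, τ, E, hc0, hc1, hτ1, hτ2, hτ3, hE, k, s, hs0, hs1, hs2⟩ :=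
    Pool.Agent.H172.RP.asym_real (e := e) hn hx0 hbas' hd hs hF hm hz hdiv hgen' hδ hrays hoff hineq
  refine ⟨m0, c, τ, E, hc0, hc1, hτ1, hτ2, hτ3, hE, k, s, hs0, fun σ b => section_iff.2 (hs1 σ b),
    fun P _ => ?_⟩
  obtain ⟨b, hb1, hb2⟩ := hs2 P
  refine ⟨b, fun m ω hm hω => hb1 m ω hm (section_iff.1 hω), fun S => ?_⟩
  obtain ⟨C, hC⟩ := hb2 S
  exact ⟨C, fun m ω hm hω => hC m ω hm (section_iff.1 hω)⟩

end Pool.Agent.Results.MP_9a2ae6_ag.RealPositivePart
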